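import Pool.Agent.H633R2.GraphDefs

/-!
# Shortest Path Most Vital Edges
-/

namespace Pool.Agent.Y602.MVE

open Pool.Agent.H633R2

/-- The question of SP-MVE: can one delete at most `k` edges of the graph `G`, whose edge `ij` has
length `τ i j`, such that afterwards every path from `s` to `t` has length at least `l`? (There is
no such set if `s` or `t` is not a vertex.) -/
def Interdict {n : ℕ} (G : SimpleGraph (Fin n)) (τ : Fin n → Fin n → ℕ) (s t k l : ℕ) : Prop :=
  ∃ (hs : s < n) (ht : t < n) (S : Finset (Sym2 (Fin n))),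
    (S : Set (Sym2 (Fin n))) ⊆ G.edgeSet ∧ S.card ≤ k ∧
    ∀ p : (G.deleteEdges S).Walk ⟨s, hs⟩ ⟨t, ht⟩, p.IsPath →
      l ≤ (p.darts.map fun d => τ d.fst d.snd).sum

/-- SP-MVE with all edge lengths equal to one. Instances `(M, s, t, k, l)`, where `M` is the
adjacency matrix of the graph. -/
def UnitMVE (x : List (List Bool) × ℕ × ℕ × ℕ × ℕ) : Prop :=
  Interdict (graphOf x.1) (fun _ _ => 1) x.2.1 x.2.2.1 x.2.2.2.1 x.2.2.2.2

/-- The number in row `min i j` and column `max i j` of the matrix `A` (missing entries are `0`):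
the length of the edge `ij`, or `0` if there is no such edge. -/
def lenOf (A : List (List ℕ)) (i j : ℕ) : ℕ := (A.getD (min i j) []).getD (max i j) 0

/-- The graph of a matrix of edge lengths. -/
def lenGraph (A : List (List ℕ)) : SimpleGraph (Fin A.length) where
  Adj i j := i ≠ j ∧ 0 < lenOf A i j
  symm := ⟨fun i j h => ⟨h.1.symm, by rw [lenOf, min_comm, max_comm]; exact h.2⟩⟩
  loopless := ⟨fun _ h => h.1 rfl⟩

/-- SP-MVE. Instances `(A, s, t, k, l)`, where `A` is the matrix of the edge lengths (in binary). -/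
def MVE (x : List (List ℕ) × ℕ × ℕ × ℕ × ℕ) : Prop :=
  Interdict (lenGraph x.1) (fun i j => lenOf x.1 i j) x.2.1 x.2.2.1 x.2.2.2.1 x.2.2.2.2

end Pool.Agent.Y602.MVE
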