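import Pool.Agent.Y602.MVE.PolyT

/-!
# W[1]-hardness of SP-MVE for the parameter number of deleted edges
-/

namespace Pool.Agent.Y602.MVE

open Pool.Agent.NPC Pool.Agent.H633R2

/-- The parameter: the number of edges that may be deleted. -/
abbrev budget {α : Type} (x : α × ℕ × ℕ × ℕ × ℕ) : ℕ := x.2.2.2.1

theorem Interdict.congr {n m : ℕ} (h : n = m) {G : SimpleGraph (Fin n)} {G' : SimpleGraph (Fin m)}
    {τ : Fin n → Fin n → ℕ} {τ' : Fin m → Fin m → ℕ}
    (hG : ∀ i j : Fin n, G.Adj i j ↔ G'.Adj (Fin.cast h i) (Fin.cast h j))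
    (hτ : ∀ i j : Fin n, G.Adj i j → τ i j = τ' (Fin.cast h i) (Fin.cast h j)) (s t k l : ℕ) :
    Interdict G τ s t k l ↔ Interdict G' τ' s t k l := by
  subst h
  simp only [Fin.cast_eq_self] at hG hτ
  have hGG : G = G' := by
    ext i j
    exact hG i j
  subst hGG
  unfold Interdict
  refine exists_congr fun hs => exists_congr fun ht => exists_congr fun S => and_congr_right fun _ =>
    and_congr_right fun _ => forall_congr' fun p => imp_congr_right fun _ => ?_
  have h1 : (p.darts.map fun d => τ d.fst d.snd) = p.darts.map fun d => τ' d.fst d.snd := by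
    refine List.map_congr_left fun d _ => hτ _ _ ?_
    have := d.adj
    rw [SimpleGraph.deleteEdges_adj] at this
    exact this.1
  rw [h1]

/-- The matrix of the lengths, all equal to one, of the edges of a graph. -/
def oneMat (M : List (List Bool)) : List (List ℕ) :=
  (List.range M.length).map fun i => (List.range M.length).map fun j =>
    bif (entry M i j || entry M j i) then 1 else 0

theorem oneMat_length (M : List (List Bool)) : (oneMat M).length = M.length := by simp [oneMat]

theorem lenOf_oneMat {M : List (List Bool)} {i j : ℕ} (hi : i < M.length) (hj : j < M.length) :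
    lenOf (oneMat M) i j = bif (entry M i j || entry M j i) then 1 else 0 := by
  have h1 : ∀ a b, a < M.length → b < M.length → ((oneMat M).getD a []).getD b 0 =
      bif (entry M a b || entry M b a) then 1 else 0 := by
    intro a b ha hb
    have e1 : (oneMat M).getD a [] = (List.range M.length).map fun j =>
        bif (entry M a j || entry M j a) then 1 else 0 := by
      unfold oneMat
      rw [List.getD_eq_getElem _ _ (by simpa using ha), List.getElem_map, List.getElem_range]
    rw [e1, List.getD_eq_getElem _ _ (by simpa using hb), List.getElem_map, List.getElem_range]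
  unfold lenOf
  rcases le_total i j with h | h
  · rw [min_eq_left h, max_eq_right h, h1 i j hi hj]
  · rw [min_eq_right h, max_eq_left h, h1 j i hj hi, Bool.or_comm]

theorem unit_iff (x : List (List Bool) × ℕ × ℕ × ℕ × ℕ) :
    UnitMVE x ↔ MVE (oneMat x.1, x.2.1, x.2.2.1, x.2.2.2.1, x.2.2.2.2) := by
  obtain ⟨M, s, t, k, l⟩ := x
  refine Interdict.congr (oneMat_length M).symm ?_ ?_ s t k l
  · intro i j
    show i ≠ j ∧ _ ↔ _ ≠ _ ∧ 0 < lenOf (oneMat M) i j
    rw [lenOf_oneMat i.2 j.2]
    refine and_congr ?_ ?_
    · rw [ne_eq, ne_eq, Fin.ext_iff, Fin.ext_iff]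
      rfl
    · show (entry M i j = true ∨ entry M j i = true) ↔ _
      cases entry M i j <;> cases entry M j i <;> simp
  · intro i j hij
    show 1 = lenOf (oneMat M) i j
    rw [lenOf_oneMat i.2 j.2]
    have h : entry M i j = true ∨ entry M j i = true := hij.2
    cases h1 : entry M i j <;> cases h2 : entry M j i <;> simp_all

theorem oneMat_poly : Poly (fun x : List (List Bool) × ℕ × ℕ × ℕ × ℕ =>
    (oneMat x.1, x.2.1, x.2.2.1, x.2.2.2.1, x.2.2.2.2)) := by
  have hM : Poly (fun x : List (List Bool) × ℕ × ℕ × ℕ × ℕ => x.1) := by fun_prop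
  have hr : Poly (fun x : List (List Bool) × ℕ × ℕ × ℕ × ℕ => List.range x.1.length) :=
    (UPoly.length hM).range
  have h1 : Poly (fun x : List (List Bool) × ℕ × ℕ × ℕ × ℕ => oneMat x.1) := by
    unfold oneMat
    refine NPC.Poly.map (F := fun x i => (List.range x.1.length).map fun j =>
      bif (entry x.1 i j || entry x.1 j i) then 1 else 0) hr ?_
    refine NPC.Poly.map (α := (List (List Bool) × ℕ × ℕ × ℕ × ℕ) × ℕ) (F := fun p j =>
      bif (entry p.1.1 p.2 j || entry p.1.1 j p.2) then 1 else 0) (hr.comp (Poly.fst Poly.id)) ?_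
    have hM' : Poly (fun q : ((List (List Bool) × ℕ × ℕ × ℕ × ℕ) × ℕ) × ℕ => q.1.1.1) := by
      fun_prop
    exact Poly.cond (Poly.or (H633.poly_entry hM' (by fun_prop) (by fun_prop))
      (H633.poly_entry hM' (by fun_prop) (by fun_prop))) (NPC.Poly.const _) (NPC.Poly.const _)
  exact Poly.pair h1 (by fun_prop)

theorem clique_to_unit : FptReduces (fun x : List (List Bool) × ℕ => x.2) HasClique budget
    UnitMVE := by
  refine ⟨red, fun n => 3 * (n * n), FptTime.of_poly red_poly,
    mul_computable (Computable.const 3) (mul_computable Computable.id Computable.id), fun x =>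
      ⟨red_correct x, ?_⟩⟩
  unfold red
  by_cases h : x.2 ≤ x.1.length
  · simp only [h, decide_true, cond_true, budget, min_eq_left h]
    exact le_rfl
  · simp only [h, decide_false, cond_false, budget]
    exact Nat.zero_le _

theorem unit_to_mve : FptReduces (budget (α := List (List Bool))) UnitMVE
    (budget (α := List (List ℕ))) MVE :=
  ⟨_, fun n => n, FptTime.of_poly oneMat_poly, Computable.id, fun x => ⟨unit_iff x, le_rfl⟩⟩

theorem w1Hard_unit : W1Hard (budget (α := List (List Bool))) UnitMVE :=
  W1Hard.of_clique clique_to_unit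

theorem w1Hard_mve : W1Hard (budget (α := List (List ℕ))) MVE :=
  W1Hard.of_clique (clique_to_unit.trans unit_to_mve)

end Pool.Agent.Y602.MVE
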