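import Pool.Agent.Y602.MVE.Unit

/-!
# The graph of a grid of binary constraints
-/

namespace Pool.Agent.Y602.MVE

/-- The scale of the edge lengths. -/
def Mm (T : ℕ) : ℕ := 16 * T + 16

/-- The shift between the two parts of a path. -/
def Bb (T : ℕ) : ℕ := 4 * T + 4

/-- Lengths of the entries. -/
def ent (T r : ℕ) : ℕ := Mm T * (1 + r * (T + 2)) + (bif decide (r = 0) then 0 else 2 * T)

/-- Lengths of the exits. -/
def ext (T r : ℕ) : ℕ :=
  Mm T * (1 + (2 - r) * (T + 2)) + (bif decide (r = 2) then T else 2 * T) - Bb T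

/-- The edges without labels; those with `true` exist once, the others many times. -/
def basic (k T : ℕ) (al : ℕ → ℕ → ℕ → ℕ → Bool) : List (Vx × Vx × ℕ × Bool) :=
  (List.range k).flatMap fun i => (List.range k).flatMap fun j =>
    ((List.range 3).flatMap fun r => (List.range (T + 1)).map fun x =>
      ((r + 1, i, j, x), (r + 1, i, j, x + 1), Mm T, al r i j x)) ++
    (((List.range 3).map fun r => ((0, 0, 0, 0), (r + 1, i, j, 0), ent T r, false)) ++
    (((List.range 3).map fun r => ((r + 1, i, j, T + 1), (4, 0, 0, 0), ext T r, false)) ++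
    (((List.range (T + 1)).map fun x =>
      ((1, i, j, x), (2, i, j, 0), Mm T * (T + 2 - x) + (T - x), false)) ++
    (((List.range (T + 1)).map fun x =>
      ((2, i, j, x), (3, i, j, 0), Mm T * (T + 2 - x) + (T - x), false)) ++
    (((List.range (T + 1)).map fun x =>
      ((3, i, j, x), (4, 0, 0, 0), Mm T * (T + 2 - x) + (T - x), false)) ++
    (((List.range (T + 1)).map fun x =>
      ((0, 0, 0, 0), (1, i, j, x + 1), Mm T * (x + 2) + (Bb T + x), false)) ++
    (((List.range (T + 1)).map fun x =>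
      ((1, i, j, T + 1), (2, i, j, x + 1), Mm T * (x + 2) + x, false)) ++
    (((List.range (T + 1)).map fun x =>
      ((2, i, j, T + 1), (3, i, j, x + 1), Mm T * (x + 2) + x, false)) ++
    (((List.range k).flatMap fun m => (List.range (T + 1)).map fun x =>
      ((1, i, j, x), (1, i, m, x), T + 2, false)) ++
    ((List.range k).flatMap fun m => (List.range (T + 1)).map fun x =>
      ((2, i, j, x), (2, m, j, x), T + 2, false)))))))))))

/-- The edges with labels. -/
def edges (k T : ℕ) (al : ℕ → ℕ → ℕ → ℕ → Bool) : List We :=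
  (basic k T al).flatMap fun e =>
    bif e.2.2.2 then [(e.1, e.2.1, e.2.2.1, 0)] else
      (List.range (3 * (k * k) + 1)).map fun c => (e.1, e.2.1, e.2.2.1, c)

/-- The length that has to be reached. -/
def goal (T : ℕ) : ℕ := Mm T * (1 + 3 * (T + 2)) + 2 * T

variable {k T : ℕ} {al : ℕ → ℕ → ℕ → ℕ → Bool}

theorem mem_basic {e : Vx × Vx × ℕ × Bool} : e ∈ basic k T al ↔ ∃ i < k, ∃ j < k,
    (∃ r < 3, ∃ x < T + 1, ((r + 1, i, j, x), (r + 1, i, j, x + 1), Mm T, al r i j x) = e) ∨
    (∃ r < 3, ((0, 0, 0, 0), (r + 1, i, j, 0), ent T r, false) = e) ∨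
    (∃ r < 3, ((r + 1, i, j, T + 1), (4, 0, 0, 0), ext T r, false) = e) ∨
    (∃ x < T + 1, ((1, i, j, x), (2, i, j, 0), Mm T * (T + 2 - x) + (T - x), false) = e) ∨
    (∃ x < T + 1, ((2, i, j, x), (3, i, j, 0), Mm T * (T + 2 - x) + (T - x), false) = e) ∨
    (∃ x < T + 1, ((3, i, j, x), (4, 0, 0, 0), Mm T * (T + 2 - x) + (T - x), false) = e) ∨
    (∃ x < T + 1, ((0, 0, 0, 0), (1, i, j, x + 1), Mm T * (x + 2) + (Bb T + x), false) = e) ∨
    (∃ x < T + 1, ((1, i, j, T + 1), (2, i, j, x + 1), Mm T * (x + 2) + x, false) = e) ∨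
    (∃ x < T + 1, ((2, i, j, T + 1), (3, i, j, x + 1), Mm T * (x + 2) + x, false) = e) ∨
    (∃ m < k, ∃ x < T + 1, ((1, i, j, x), (1, i, m, x), T + 2, false) = e) ∨
    (∃ m < k, ∃ x < T + 1, ((2, i, j, x), (2, m, j, x), T + 2, false) = e) := by
  unfold basic
  simp only [List.mem_flatMap, List.mem_append, List.mem_map, List.mem_range]

theorem mem_edges {w : We} : w ∈ edges k T al ↔ ∃ b, (w.1, w.2.1, w.2.2.1, b) ∈ basic k T al ∧
    ((b = true ∧ w.2.2.2 = 0) ∨ (b = false ∧ w.2.2.2 < 3 * (k * k) + 1)) := by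
  unfold edges
  rw [List.mem_flatMap]
  constructor
  · rintro ⟨⟨u, v, l, b⟩, he, h⟩
    cases b
    · simp only [cond_false, List.mem_map, List.mem_range] at h
      obtain ⟨c, hc, rfl⟩ := h
      exact ⟨false, he, Or.inr ⟨rfl, hc⟩⟩
    · simp only [cond_true, List.mem_cons, List.not_mem_nil, or_false] at h
      subst h
      exact ⟨true, he, Or.inl ⟨rfl, rfl⟩⟩
  · rintro ⟨b, he, ⟨rfl, h⟩ | ⟨rfl, h⟩⟩
    · refine ⟨_, he, ?_⟩
      simp only [cond_true, List.mem_cons, List.not_mem_nil, or_false]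
      rw [← h]
    · refine ⟨_, he, ?_⟩
      simp only [cond_false, List.mem_map, List.mem_range]
      exact ⟨_, h, rfl⟩

theorem Mm_eq : Mm T = 4 * Bb T := by unfold Mm Bb; ring

theorem two_le_len {w : We} (hw : w ∈ edges k T al) : 2 ≤ w.2.2.1 := by
  obtain ⟨b, hb, -⟩ := mem_edges.1 hw
  obtain ⟨i, _, j, _, h⟩ := mem_basic.1 hb
  have hM : 16 ≤ Mm T := by unfold Mm; omega
  have hB : Mm T = 4 * Bb T := Mm_eq
  have hm : ∀ n, 0 < n → Mm T ≤ Mm T * n := fun n hn => Nat.le_mul_of_pos_right _ hn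
  rcases h with ⟨r, _, x, _, h⟩ | ⟨r, _, h⟩ | ⟨r, _, h⟩ | ⟨x, hx, h⟩ | ⟨x, hx, h⟩ | ⟨x, hx, h⟩ |
    ⟨x, _, h⟩ | ⟨x, _, h⟩ | ⟨x, _, h⟩ | ⟨m, _, x, _, h⟩ | ⟨m, _, x, _, h⟩
  all_goals
    simp only [Prod.mk.injEq] at h
    obtain ⟨-, -, h, -⟩ := h
    rw [← h]
  · omega
  · have := hm (1 + r * (T + 2)) (by omega)
    unfold ent
    omega
  · have := hm (1 + (2 - r) * (T + 2)) (by omega)
    unfold ext
    generalize (bif decide (r = 2) then T else 2 * T) = c
    omega
  · have := hm (T + 2 - x) (by omega)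
    omega
  · have := hm (T + 2 - x) (by omega)
    omega
  · have := hm (T + 2 - x) (by omega)
    omega
  · have := hm (x + 2) (by omega)
    omega
  · have := hm (x + 2) (by omega)
    omega
  · have := hm (x + 2) (by omega)
    omega
  · omega
  · omega

theorem cast_len {x : ℕ} (hx : x < T + 1) :
    ((Mm T * (T + 2 - x) + (T - x) : ℕ) : ℤ) = (Mm T : ℤ) * (T + 2 - x) + (T - x) := by
  rw [Nat.cast_add, Nat.cast_mul, Nat.cast_sub (by omega), Nat.cast_sub (by omega)]
  push_cast
  ring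

theorem cast_ext {r : ℕ} (hr : r < 3) : (ext T r : ℤ) =
    (Mm T : ℤ) * (1 + (2 - r) * (T + 2)) + (if r = 2 then (T : ℤ) else 2 * T) - Bb T := by
  have hB : Mm T = 4 * Bb T := Mm_eq
  have h1 : Mm T ≤ Mm T * (1 + (2 - r) * (T + 2)) := Nat.le_mul_of_pos_right _ (by omega)
  unfold ext
  rw [Nat.cast_sub (by omega), Nat.cast_add, Nat.cast_mul]
  interval_cases r <;> simp <;> ring

theorem cast_ent {r : ℕ} : (ent T r : ℤ) =
    (Mm T : ℤ) * (1 + r * (T + 2)) + (if r = 0 then (0 : ℤ) else 2 * T) := by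
  unfold ent
  by_cases h : r = 0
  · simp [h]
  · simp [h]

/-! ### From the constraints to a solution -/

/-- The potential. -/
def pot (T : ℕ) (u y : ℕ → ℕ) (v : Vx) : ℤ :=
  if v.1 = 0 then 0 else
  if v.1 = 1 then (Mm T : ℤ) * (1 + v.2.2.2) +
    (if v.2.2.2 ≤ u v.2.1 then 0 else (Bb T : ℤ) + u v.2.1) else
  if v.1 = 2 then (Mm T : ℤ) * (1 + (T + 2) + v.2.2.2) +
    (if v.2.2.2 ≤ y v.2.2.1 then (T : ℤ) - u v.2.1 else (Bb T : ℤ) + u v.2.1 + y v.2.2.1) else
  if v.1 = 3 then (Mm T : ℤ) * (1 + 2 * (T + 2) + v.2.2.2) +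
    (if v.2.2.2 + u v.2.1 + y v.2.2.1 ≤ T then 2 * (T : ℤ) - u v.2.1 - y v.2.2.1
      else (Bb T : ℤ) + T) else
  (Mm T : ℤ) * (1 + 3 * (T + 2)) + 2 * T

/-- The position of the cut. -/
def cutAt (T : ℕ) (u y : ℕ → ℕ) (r i j : ℕ) : ℕ :=
  if r = 0 then u i else if r = 1 then y j else T - u i - y j

/-- The deleted edges. -/
def cuts (k T : ℕ) (u y : ℕ → ℕ) : Finset We :=
  (Finset.range 3 ×ˢ Finset.range k ×ˢ Finset.range k).image fun q =>
    ((q.1 + 1, q.2.1, q.2.2, cutAt T u y q.1 q.2.1 q.2.2),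
      (q.1 + 1, q.2.1, q.2.2, cutAt T u y q.1 q.2.1 q.2.2 + 1), Mm T, 0)

theorem card_cuts (u y : ℕ → ℕ) : (cuts k T u y).card ≤ 3 * (k * k) := by
  refine Finset.card_image_le.trans ?_
  simp

theorem pot_ok {u y : ℕ → ℕ} (huy : ∀ i < k, ∀ j < k, u i + y j ≤ T)
    (hal : ∀ r < 3, ∀ i < k, ∀ j < k, al r i j (cutAt T u y r i j) = true)
    {w : We} (hw : w ∈ edges k T al) (hn : w ∉ cuts k T u y) :
    |pot T u y w.1 - pot T u y w.2.1| ≤ w.2.2.1 := by
  obtain ⟨b, hb, hb'⟩ := mem_edges.1 hw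
  obtain ⟨i, hi, j, hj, h⟩ := mem_basic.1 hb
  have hM : (Mm T : ℤ) = 16 * T + 16 := by unfold Mm; push_cast; ring
  have hB : (Bb T : ℤ) = 4 * T + 4 := by unfold Bb; push_cast; ring
  have hT : (0 : ℤ) ≤ T := Int.natCast_nonneg _
  have h1 := huy i hi j hj
  have h1' : (u i : ℤ) + y j ≤ T := by exact_mod_cast h1
  have hu0 : (0 : ℤ) ≤ u i := Int.natCast_nonneg _
  have hy0 : (0 : ℤ) ≤ y j := Int.natCast_nonneg _
  have hMn : (0 : ℤ) ≤ Mm T := Int.natCast_nonneg _
  obtain ⟨w1, w2, w3, w4⟩ := w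
  simp only at hb hb' h hn ⊢
  rcases h with ⟨r, hr, x, hx, h⟩ | ⟨r, hr, h⟩ | ⟨r, hr, h⟩ | ⟨x, hx, h⟩ | ⟨x, hx, h⟩ | ⟨x, hx, h⟩ |
    ⟨x, hx, h⟩ | ⟨x, hx, h⟩ | ⟨x, hx, h⟩ | ⟨m, hm, x, hx, h⟩ | ⟨m, hm, x, hx, h⟩
  all_goals
    simp only [Prod.mk.injEq] at h
    obtain ⟨rfl, rfl, rfl, rfl⟩ := h
  · -- positions
    have hne : x ≠ cutAt T u y r i j := by
      rintro rfl
      rcases hb' with ⟨_, h2⟩ | ⟨h2, _⟩
      · apply hn
        rw [cuts, Finset.mem_image]
        refine ⟨(r, i, j), ?_, ?_⟩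
        · simp [hr, hi, hj]
        · rw [h2]
      · rw [hal r hr i hi j hj] at h2
        exact absurd h2 (by simp)
    interval_cases r
    · simp only [cutAt, if_true] at hne
      simp only [pot]
      norm_num
      split_ifs <;> first | omega | (push_cast; rw [abs_le]; constructor <;> linarith)
    · simp only [cutAt] at hne
      norm_num at hne
      simp only [pot]
      norm_num
      split_ifs <;> first | omega | (push_cast; rw [abs_le]; constructor <;> linarith)
    · simp only [cutAt] at hne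
      norm_num at hne
      simp only [pot]
      norm_num
      split_ifs <;> first | omega | (push_cast; rw [abs_le]; constructor <;> linarith)
  · -- entries
    rw [cast_ent]
    simp only [pot]
    interval_cases r
    · norm_num
    · norm_num
      rw [abs_le]
      constructor <;> nlinarith
    · norm_num
      rw [if_pos h1, abs_le]
      constructor <;> nlinarith
  · -- exits
    rw [cast_ext hr]
    simp only [pot]
    interval_cases r
    · norm_num
      rw [if_neg (by omega), abs_le]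
      constructor <;> nlinarith
    · norm_num
      rw [if_neg (by omega), abs_le]
      constructor <;> nlinarith
    · norm_num
      rw [if_neg (by omega), abs_le]
      constructor <;> nlinarith
  · rw [cast_len hx]
    simp only [pot]
    norm_num
    have hx' : (x : ℤ) ≤ T := by exact_mod_cast Nat.lt_succ_iff.1 hx
    split_ifs with c
    · have c' : (x : ℤ) ≤ u i := by exact_mod_cast c
      rw [abs_le]
      constructor <;> nlinarith
    · rw [abs_le]
      constructor <;> nlinarith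
  · rw [cast_len hx]
    simp only [pot]
    norm_num
    have hx' : (x : ℤ) ≤ T := by exact_mod_cast Nat.lt_succ_iff.1 hx
    split_ifs with c
    · have c' : (x : ℤ) ≤ y j := by exact_mod_cast c
      rw [abs_le]
      constructor <;> nlinarith
    · rw [abs_le]
      constructor <;> nlinarith
  · rw [cast_len hx]
    simp only [pot]
    norm_num
    have hx' : (x : ℤ) ≤ T := by exact_mod_cast Nat.lt_succ_iff.1 hx
    split_ifs with c
    · have c' : (x : ℤ) + u i + y j ≤ T := by exact_mod_cast c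
      rw [abs_le]
      constructor <;> nlinarith
    · rw [abs_le]
      constructor <;> nlinarith
  · simp only [pot]
    norm_num
    have hx' : (x : ℤ) ≤ T := by exact_mod_cast Nat.lt_succ_iff.1 hx
    split_ifs with c
    · rw [abs_le]
      constructor <;> nlinarith
    · have c' : (u i : ℤ) ≤ x := by exact_mod_cast Nat.lt_succ_iff.1 (not_le.1 c)
      rw [abs_le]
      constructor <;> nlinarith
  · simp only [pot]
    norm_num
    have hx' : (x : ℤ) ≤ T := by exact_mod_cast Nat.lt_succ_iff.1 hx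
    rw [if_neg (by omega : ¬ T < u i)]
    split_ifs with c
    · rw [abs_le]
      constructor <;> nlinarith
    · have c' : (y j : ℤ) ≤ x := by exact_mod_cast Nat.lt_succ_iff.1 (not_le.1 c)
      rw [abs_le]
      constructor <;> nlinarith
  · simp only [pot]
    norm_num
    have hx' : (x : ℤ) ≤ T := by exact_mod_cast Nat.lt_succ_iff.1 hx
    rw [if_neg (by omega : ¬ T < y j)]
    split_ifs with c
    · rw [abs_le]
      constructor <;> nlinarith
    · have c1 : T ≤ x + u i + y j := by omega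
      have c' : (T : ℤ) ≤ x + u i + y j := by exact_mod_cast c1
      rw [abs_le]
      constructor <;> nlinarith
  · simp only [pot]
    norm_num
    positivity
  · simp only [pot]
    norm_num
    have h2 : (u m : ℤ) + y j ≤ T := by exact_mod_cast huy m hm j hj
    have hm0 : (0 : ℤ) ≤ u m := Int.natCast_nonneg _
    split_ifs with c
    · rw [abs_le]
      constructor <;> nlinarith
    · rw [abs_le]
      constructor <;> nlinarith

end Pool.Agent.Y602.MVE
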