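import Pool.Agent.Y602.MVE.Grid

/-!
# Solutions of the graph and solutions of the constraints
-/

namespace Pool.Agent.Y602.MVE

variable {k T : ℕ} {al : ℕ → ℕ → ℕ → ℕ → Bool}

theorem cutAt_le {u y : ℕ → ℕ} (huy : ∀ i < k, ∀ j < k, u i + y j ≤ T) {r i j : ℕ}
    (hi : i < k) (hj : j < k) : cutAt T u y r i j ≤ T := by
  have := huy i hi j hj
  unfold cutAt
  split_ifs <;> omega

/-- A solution of the constraints gives a solution for the graph. -/
theorem yes_of_solution {u y : ℕ → ℕ} (huy : ∀ i < k, ∀ j < k, u i + y j ≤ T)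
    (hal : ∀ r < 3, ∀ i < k, ∀ j < k, al r i j (cutAt T u y r i j) = true) :
    UnitMVE (unitMat (edges k T al), (unitVerts (edges k T al)).idxOf (orig (0, 0, 0, 0)),
      (unitVerts (edges k T al)).idxOf (orig (4, 0, 0, 0)), 3 * (k * k), goal T) := by
  refine unit_of_pot (fun w hw => two_le_len hw) (cuts k T u y) (pot T u y) _ _ ?_
    (card_cuts u y) (fun w hw hn => pot_ok huy hal hw hn) ?_
  · intro w hw
    rw [cuts, Finset.mem_image] at hw
    obtain ⟨⟨r, i, j⟩, hq, rfl⟩ := hw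
    simp only [Finset.mem_product, Finset.mem_range] at hq
    obtain ⟨hr, hi, hj⟩ := hq
    refine mem_edges.2 ⟨true, ?_, Or.inl ⟨rfl, rfl⟩⟩
    refine mem_basic.2 ⟨i, hi, j, hj, Or.inl ⟨r, hr, cutAt T u y r i j,
      Nat.lt_succ_of_le (cutAt_le huy hi hj), ?_⟩⟩
    rw [hal r hr i hi j hj]
  · simp only [pot, goal]
    norm_num

theorem goal_cast : (goal T : ℤ) = (Mm T : ℤ) * (1 + 3 * (T + 2)) + 2 * T := by
  unfold goal; push_cast; ring

/-- A small set of edges that meets all short walks gives a solution of the constraints. -/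
theorem solution_of_cut (H : Finset We) (hH : H.card ≤ 3 * (k * k))
    (hF : ∀ n, FW (edges k T al) H (0, 0, 0, 0) (4, 0, 0, 0) n → goal T ≤ n) :
    ∃ X : ℕ → ℕ → ℕ → ℕ,
      (∀ r < 3, ∀ i < k, ∀ j < k, X r i j ≤ T ∧ al r i j (X r i j) = true) ∧
      (∀ i < k, ∀ j < k, ∀ m < k, X 0 i j = X 0 i m) ∧
      (∀ i < k, ∀ j < k, ∀ m < k, X 1 i j = X 1 m j) ∧
      ∀ i < k, ∀ j < k, X 0 i j + X 1 i j + X 2 i j = T := by
  have hM : (Mm T : ℤ) = 16 * T + 16 := by unfold Mm; push_cast; ring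
  have hB : (Bb T : ℤ) = 4 * T + 4 := by unfold Bb; push_cast; ring
  have hT : (0 : ℤ) ≤ T := Int.natCast_nonneg _
  -- edges that exist many times
  have thick : ∀ u v l, (u, v, l, false) ∈ basic k T al → FW (edges k T al) H u v l := by
    intro u v l h
    have h1 : ∃ c < 3 * (k * k) + 1, ((u, v, l, c) : We) ∉ H := by
      by_contra hne
      push Not at hne
      have h2 : (Finset.range (3 * (k * k) + 1)).card ≤ H.card :=
        Finset.card_le_card_of_injOn (fun c => ((u, v, l, c) : We))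
          (fun c hc => hne c (Finset.mem_range.1 hc))
          (fun c _ c' _ hcc => by simpa using hcc)
      rw [Finset.card_range] at h2
      omega
    obtain ⟨c, hc, hn⟩ := h1
    have := FW.cons (E := edges k T al) (w := (u, v, l, c)) (c := v) (n := 0)
      (mem_edges.2 ⟨false, h, Or.inr ⟨rfl, hc⟩⟩) hn (FW.nil v)
    simpa using this
  have pos : ∀ r < 3, ∀ i < k, ∀ j < k, ∀ x < T + 1, (al r i j x = true →
      (((r + 1, i, j, x), (r + 1, i, j, x + 1), Mm T, 0) : We) ∉ H) →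
      FW (edges k T al) H (r + 1, i, j, x) (r + 1, i, j, x + 1) (Mm T) := by
    intro r hr i hi j hj x hx hn
    have h1 : ((r + 1, i, j, x), (r + 1, i, j, x + 1), Mm T, al r i j x) ∈ basic k T al :=
      mem_basic.2 ⟨i, hi, j, hj, Or.inl ⟨r, hr, x, hx, rfl⟩⟩
    cases h2 : al r i j x
    · rw [h2] at h1
      exact thick _ _ _ h1
    · rw [h2] at h1
      have := FW.cons (E := edges k T al)
        (w := ((r + 1, i, j, x), (r + 1, i, j, x + 1), Mm T, 0)) (c := (r + 1, i, j, x + 1))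
        (n := 0) (mem_edges.2 ⟨true, h1, Or.inl ⟨rfl, rfl⟩⟩) (hn h2) (FW.nil _)
      simpa using this
  have seg : ∀ r < 3, ∀ i < k, ∀ j < k, ∀ a b, a ≤ b → b ≤ T + 1 → (∀ x, a ≤ x → x < b →
      al r i j x = true → (((r + 1, i, j, x), (r + 1, i, j, x + 1), Mm T, 0) : We) ∉ H) →
      FW (edges k T al) H (r + 1, i, j, a) (r + 1, i, j, b) (Mm T * (b - a)) := by
    intro r hr i hi j hj a b hab
    induction b, hab using Nat.le_induction with
    | base =>
      intro _ _
      rw [Nat.sub_self, Nat.mul_zero]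
      exact FW.nil _
    | succ b hab ih =>
      intro hb hx
      have h1 := ih (by omega) (fun x h2 h3 => hx x h2 (by omega))
      have h2 := pos r hr i hi j hj b (by omega) (hx b hab (by omega))
      have h3 := h1.trans h2
      have h4 : Mm T * (b - a) + Mm T = Mm T * (b + 1 - a) := by
        rw [Nat.succ_sub hab, Nat.mul_succ]
      rwa [h4] at h3
  have entW : ∀ r < 3, ∀ i < k, ∀ j < k, FW (edges k T al) H (0, 0, 0, 0) (r + 1, i, j, 0)
      (ent T r) := fun r hr i hi j hj => thick _ _ _ (mem_basic.2 ⟨i, hi, j, hj,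
        Or.inr (Or.inl ⟨r, hr, rfl⟩)⟩)
  have extW : ∀ r < 3, ∀ i < k, ∀ j < k, FW (edges k T al) H (r + 1, i, j, T + 1) (4, 0, 0, 0)
      (ext T r) := fun r hr i hi j hj => thick _ _ _ (mem_basic.2 ⟨i, hi, j, hj,
        Or.inr (Or.inr (Or.inl ⟨r, hr, rfl⟩))⟩)
  -- each path is cut
  have hit : ∀ r < 3, ∀ i < k, ∀ j < k, ∃ x < T + 1, al r i j x = true ∧
      (((r + 1, i, j, x), (r + 1, i, j, x + 1), Mm T, 0) : We) ∈ H := by
    intro r hr i hi j hj
    by_contra hne
    push Not at hne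
    have h1 := seg r hr i hi j hj 0 (T + 1) (by omega) le_rfl (fun x _ hx => hne x hx)
    have h2 := hF _ (((entW r hr i hi j hj).trans h1).trans (extW r hr i hi j hj))
    have h3 : (goal T : ℤ) ≤ ((ent T r + Mm T * (T + 1 - 0) + ext T r : ℕ) : ℤ) := by
      exact_mod_cast h2
    push_cast at h3
    rw [goal_cast, cast_ent, cast_ext hr] at h3
    interval_cases r <;> norm_num at h3 <;> nlinarith
  choose! X hX using hit
  have himg : H = (Finset.range 3 ×ˢ Finset.range k ×ˢ Finset.range k).image fun q =>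
      (((q.1 + 1, q.2.1, q.2.2, X q.1 q.2.1 q.2.2), (q.1 + 1, q.2.1, q.2.2,
        X q.1 q.2.1 q.2.2 + 1), Mm T, 0) : We) := by
    symm
    apply Finset.eq_of_subset_of_card_le
    · intro w hw
      rw [Finset.mem_image] at hw
      obtain ⟨⟨r, i, j⟩, hq, rfl⟩ := hw
      simp only [Finset.mem_product, Finset.mem_range] at hq
      exact (hX r hq.1 i hq.2.1 j hq.2.2).2.2
    · rw [Finset.card_image_of_injective]
      · simpa using hH
      · rintro ⟨r, i, j⟩ ⟨r', i', j'⟩ h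
        simp only [Prod.mk.injEq] at h
        obtain ⟨⟨h1, h2, h3, _⟩, _⟩ := h
        simp only [Prod.mk.injEq]
        exact ⟨by omega, h2, h3⟩
  have hnot : ∀ r i j x, x ≠ X r i j →
      (((r + 1, i, j, x), (r + 1, i, j, x + 1), Mm T, 0) : We) ∉ H := by
    intro r i j x hx h
    rw [himg, Finset.mem_image] at h
    obtain ⟨⟨r', i', j'⟩, -, h⟩ := h
    simp only [Prod.mk.injEq] at h
    obtain ⟨⟨h1, h2, h3, h4⟩, _⟩ := h
    have h5 : r' = r := by omega
    subst h5 h2 h3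
    exact hx h4.symm
  have hXT : ∀ r < 3, ∀ i < k, ∀ j < k, X r i j ≤ T := fun r hr i hi j hj =>
    Nat.lt_succ_iff.1 (hX r hr i hi j hj).1
  have hXal : ∀ r < 3, ∀ i < k, ∀ j < k, al r i j (X r i j) = true := fun r hr i hi j hj =>
    (hX r hr i hi j hj).2.1
  have pre : ∀ r < 3, ∀ i < k, ∀ j < k, ∀ x ≤ X r i j,
      FW (edges k T al) H (r + 1, i, j, 0) (r + 1, i, j, x) (Mm T * x) := by
    intro r hr i hi j hj x hx
    have h1 := hXT r hr i hi j hj
    have := seg r hr i hi j hj 0 x (by omega) (by omega)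
      (fun x' _ hx' _ => hnot r i j x' (by omega))
    simpa using this
  have suf : ∀ r < 3, ∀ i < k, ∀ j < k, ∀ x, X r i j < x → x ≤ T + 1 →
      FW (edges k T al) H (r + 1, i, j, x) (r + 1, i, j, T + 1) (Mm T * (T + 1 - x)) := by
    intro r hr i hi j hj x hx hx'
    exact seg r hr i hi j hj x (T + 1) (by omega) (by omega)
      (fun x' h1 _ _ => hnot r i j x' (by omega))
  -- the copies agree
  have rung : ∀ r < 2, ∀ i < k, ∀ j < k, ∀ i' < k, ∀ j' < k,
      (∀ x < T + 1, ((r + 1, i', j', x), (r + 1, i, j, x), T + 2, false) ∈ basic k T al) →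
      ¬ X r i j < X r i' j' := by
    intro r hr i hi j hj i' hi' j' hj' hb hlt
    have h0 := hXT r (by omega) i' hi' j' hj'
    have h1 := (entW r (by omega) i' hi' j' hj').trans
      (pre r (by omega) i' hi' j' hj' (X r i' j') le_rfl)
    have h2 := h1.trans (thick _ _ _ (hb (X r i' j') (by omega)))
    have h3 := (suf r (by omega) i hi j hj (X r i' j') hlt (by omega)).trans
      (extW r (by omega) i hi j hj)
    have h4 := hF _ (h2.trans h3)
    have h5 : (goal T : ℤ) ≤ ((ent T r + Mm T * X r i' j' + (T + 2) +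
        (Mm T * (T + 1 - X r i' j') + ext T r) : ℕ) : ℤ) := by exact_mod_cast h4
    have h6 : ((T + 1 - X r i' j' : ℕ) : ℤ) = (T : ℤ) + 1 - X r i' j' := by
      rw [Nat.cast_sub (by omega)]; push_cast; ring
    simp only [Nat.cast_add, Nat.cast_mul, h6, goal_cast, cast_ent,
      cast_ext (show r < 3 by omega)] at h5
    push_cast at h5
    interval_cases r <;> norm_num at h5 <;> nlinarith
  have hA : ∀ i < k, ∀ j < k, ∀ m < k, ¬ X 0 i j < X 0 i m := fun i hi j hj m hm =>
    rung 0 (by omega) i hi j hj i hi m hm fun x hx => mem_basic.2 ⟨i, hi, m, hm,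
      Or.inr (Or.inr (Or.inr (Or.inr (Or.inr (Or.inr (Or.inr (Or.inr (Or.inr (Or.inl
        ⟨j, hj, x, hx, rfl⟩)))))))))⟩
  have hB' : ∀ i < k, ∀ j < k, ∀ m < k, ¬ X 1 i j < X 1 m j := fun i hi j hj m hm =>
    rung 1 (by omega) i hi j hj m hm j hj fun x hx => mem_basic.2 ⟨m, hm, j, hj,
      Or.inr (Or.inr (Or.inr (Or.inr (Or.inr (Or.inr (Or.inr (Or.inr (Or.inr (Or.inr
        ⟨i, hi, x, hx, rfl⟩)))))))))⟩
  refine ⟨X, fun r hr i hi j hj => ⟨hXT r hr i hi j hj, hXal r hr i hi j hj⟩, ?_, ?_, ?_⟩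
  · intro i hi j hj m hm
    have h1 := hA i hi j hj m hm
    have h2 := hA i hi m hm j hj
    omega
  · intro i hi j hj m hm
    have h1 := hB' i hi j hj m hm
    have h2 := hB' m hm j hj i hi
    omega
  · intro i hi j hj
    have t0 := hXT 0 (by omega) i hi j hj
    have t1 := hXT 1 (by omega) i hi j hj
    have t2 := hXT 2 (by omega) i hi j hj
    have key1 : X 0 i j + X 1 i j + X 2 i j ≤ T := by
      have e0 := (entW 0 (by omega) i hi j hj).trans (pre 0 (by omega) i hi j hj _ le_rfl)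
      have f0 := thick _ _ _ (mem_basic.2 ⟨i, hi, j, hj, Or.inr (Or.inr (Or.inr (Or.inl
        ⟨X 0 i j, by omega, rfl⟩)))⟩ : ((1, i, j, X 0 i j), (2, i, j, 0),
          Mm T * (T + 2 - X 0 i j) + (T - X 0 i j), false) ∈ basic k T al)
      have e1 := pre 1 (by omega) i hi j hj _ le_rfl
      have f1 := thick _ _ _ (mem_basic.2 ⟨i, hi, j, hj, Or.inr (Or.inr (Or.inr (Or.inr (Or.inl
        ⟨X 1 i j, by omega, rfl⟩))))⟩ : ((2, i, j, X 1 i j), (3, i, j, 0),
          Mm T * (T + 2 - X 1 i j) + (T - X 1 i j), false) ∈ basic k T al)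
      have e2 := pre 2 (by omega) i hi j hj _ le_rfl
      have f2 := thick _ _ _ (mem_basic.2 ⟨i, hi, j, hj, Or.inr (Or.inr (Or.inr (Or.inr (Or.inr
        (Or.inl ⟨X 2 i j, by omega, rfl⟩)))))⟩ : ((3, i, j, X 2 i j), (4, 0, 0, 0),
          Mm T * (T + 2 - X 2 i j) + (T - X 2 i j), false) ∈ basic k T al)
      have h4 := hF _ (((((e0.trans f0).trans e1).trans f1).trans e2).trans f2)
      have h5 : (goal T : ℤ) ≤ (ent T 0 : ℤ) + (Mm T * X 0 i j : ℕ) +
          (Mm T * (T + 2 - X 0 i j) + (T - X 0 i j) : ℕ) + (Mm T * X 1 i j : ℕ) +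
          (Mm T * (T + 2 - X 1 i j) + (T - X 1 i j) : ℕ) + (Mm T * X 2 i j : ℕ) +
          (Mm T * (T + 2 - X 2 i j) + (T - X 2 i j) : ℕ) := by exact_mod_cast h4
      rw [cast_len (by omega), cast_len (by omega), cast_len (by omega), goal_cast, cast_ent]
        at h5
      push_cast at h5
      norm_num at h5
      have : (X 0 i j : ℤ) + X 1 i j + X 2 i j ≤ T := by nlinarith
      exact_mod_cast this
    have key2 : T ≤ X 0 i j + X 1 i j + X 2 i j := by
      have f0 := thick _ _ _ (mem_basic.2 ⟨i, hi, j, hj, Or.inr (Or.inr (Or.inr (Or.inr (Or.inr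
        (Or.inr (Or.inl ⟨X 0 i j, by omega, rfl⟩))))))⟩ : ((0, 0, 0, 0), (1, i, j, X 0 i j + 1),
          Mm T * (X 0 i j + 2) + (Bb T + X 0 i j), false) ∈ basic k T al)
      have e0 := suf 0 (by omega) i hi j hj (X 0 i j + 1) (by omega) (by omega)
      have f1 := thick _ _ _ (mem_basic.2 ⟨i, hi, j, hj, Or.inr (Or.inr (Or.inr (Or.inr (Or.inr
        (Or.inr (Or.inr (Or.inl ⟨X 1 i j, by omega, rfl⟩)))))))⟩ : ((1, i, j, T + 1),
          (2, i, j, X 1 i j + 1), Mm T * (X 1 i j + 2) + X 1 i j, false) ∈ basic k T al)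
      have e1 := suf 1 (by omega) i hi j hj (X 1 i j + 1) (by omega) (by omega)
      have f2 := thick _ _ _ (mem_basic.2 ⟨i, hi, j, hj, Or.inr (Or.inr (Or.inr (Or.inr (Or.inr
        (Or.inr (Or.inr (Or.inr (Or.inl ⟨X 2 i j, by omega, rfl⟩))))))))⟩ : ((2, i, j, T + 1),
          (3, i, j, X 2 i j + 1), Mm T * (X 2 i j + 2) + X 2 i j, false) ∈ basic k T al)
      have e2 := suf 2 (by omega) i hi j hj (X 2 i j + 1) (by omega) (by omega)
      have h4 := hF _ ((((((f0.trans e0).trans f1).trans e1).trans f2).trans e2).trans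
        (extW 2 (by omega) i hi j hj))
      have h5 : (goal T : ℤ) ≤ (Mm T * (X 0 i j + 2) + (Bb T + X 0 i j) : ℕ) +
          (Mm T * (T + 1 - (X 0 i j + 1)) : ℕ) + (Mm T * (X 1 i j + 2) + X 1 i j : ℕ) +
          (Mm T * (T + 1 - (X 1 i j + 1)) : ℕ) + (Mm T * (X 2 i j + 2) + X 2 i j : ℕ) +
          (Mm T * (T + 1 - (X 2 i j + 1)) : ℕ) + (ext T 2 : ℤ) := by exact_mod_cast h4
      rw [Nat.cast_mul (Mm T) (T + 1 - (X 0 i j + 1)), Nat.cast_mul (Mm T)
        (T + 1 - (X 1 i j + 1)), Nat.cast_mul (Mm T) (T + 1 - (X 2 i j + 1)),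
        Nat.cast_sub (by omega), Nat.cast_sub (by omega), Nat.cast_sub (by omega), goal_cast,
        cast_ext (by omega)] at h5
      push_cast at h5
      norm_num at h5
      have : (T : ℤ) ≤ X 0 i j + X 1 i j + X 2 i j := by nlinarith
      exact_mod_cast this
    omega

end Pool.Agent.Y602.MVE
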