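import Pool.Agent.Y602.MVE.Main
import Pool.Agent.H633R2.DkSMain
import Pool.Agent.H612.CollectPoly
import Pool.Agent.H671R2.PolyAuto

/-!
# The reduction from Clique
-/

namespace Pool.Agent.Y602.MVE

open Pool.Agent.NPC Pool.Agent.H633R2 Pool.Agent.NPC.H612

/-- The relation between the variables number `i` and `j`. -/
def rel (M : List (List Bool)) (i j u v : ℕ) : Bool :=
  bif decide (i = j) then decide (u = v) else edg M u v

/-- The positions where a path may be cut. -/
def alw (M : List (List Bool)) (r i j x : ℕ) : Bool :=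
  bif decide (r = 0) then decide (x % M.length = 0) && decide (x / M.length < M.length) else
  bif decide (r = 1) then decide (x < M.length) else
    decide (M.length * M.length - x < M.length * M.length) &&
      rel M i j ((M.length * M.length - x) / M.length) ((M.length * M.length - x) % M.length)

theorem alw_two (M : List (List Bool)) (i j x : ℕ) : alw M 2 i j x =
    (decide (M.length * M.length - x < M.length * M.length) &&
      rel M i j ((M.length * M.length - x) / M.length) ((M.length * M.length - x) % M.length)) :=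
  rfl

theorem cutAt_two (T : ℕ) (u y : ℕ → ℕ) (i j : ℕ) : cutAt T u y 2 i j = T - u i - y j := rfl

/-- The graph of the reduction. -/
def gE (M : List (List Bool)) (k : ℕ) : List We := edges k (M.length * M.length) (alw M)

/-- The reduction from Clique to SP-MVE with unit lengths. -/
def red (x : List (List Bool) × ℕ) : List (List Bool) × ℕ × ℕ × ℕ × ℕ :=
  bif decide (x.2 ≤ x.1.length) then
    (unitMat (gE x.1 (min x.2 x.1.length)),
      (unitVerts (gE x.1 (min x.2 x.1.length))).idxOf (orig (0, 0, 0, 0)),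
      (unitVerts (gE x.1 (min x.2 x.1.length))).idxOf (orig (4, 0, 0, 0)),
      3 * (min x.2 x.1.length * min x.2 x.1.length), goal (x.1.length * x.1.length))
  else ([], 0, 0, 0, 0)

theorem not_unitMVE_nil : ¬ UnitMVE ([], 0, 0, 0, 0) := by
  rintro ⟨h, _⟩
  exact absurd h (by simp)

theorem card_le_of_clique {M : List (List Bool)} {k : ℕ} (h : HasClique (M, k)) :
    k ≤ M.length := by
  obtain ⟨S, hS⟩ := h
  have h1 := hS.card_eq
  have h2 := Finset.card_le_univ S
  simp only [Fintype.card_fin] at h1 h2
  omega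

theorem grid_correct {M : List (List Bool)} {k : ℕ} (hk : k ≤ M.length) :
    HasClique (M, k) ↔ UnitMVE (unitMat (gE M k), (unitVerts (gE M k)).idxOf (orig (0, 0, 0, 0)),
      (unitVerts (gE M k)).idxOf (orig (4, 0, 0, 0)), 3 * (k * k), goal (M.length * M.length)) := by
  rw [hasClique_iff]
  constructor
  · rintro ⟨a, ha, hE⟩
    have hN : ∀ i < k, 0 < M.length := fun i hi => by omega
    have hle : ∀ i < k, ∀ j < k, M.length * a i + a j < M.length * M.length := by
      intro i hi j hj
      have h1 := ha i hi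
      have h2 := ha j hj
      calc M.length * a i + a j < M.length * a i + M.length := by omega
        _ = M.length * (a i + 1) := by ring
        _ ≤ M.length * M.length := Nat.mul_le_mul_left _ h1
    refine yes_of_solution (u := fun i => M.length * a i) (y := a)
      (fun i hi j hj => (hle i hi j hj).le) ?_
    intro r hr i hi j hj
    have h0 := hN i hi
    have h1 := ha i hi
    have h2 := ha j hj
    have h3 := hle i hi j hj
    interval_cases r
    · simp only [cutAt, alw, if_true, decide_true, cond_true]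
      rw [Nat.mul_mod_right, Nat.mul_div_cancel_left _ h0]
      simp [h1]
    · simp [cutAt, alw, h2]
    · have h4 : M.length * M.length - (M.length * M.length - M.length * a i - a j) =
          M.length * a i + a j := by omega
      have h5 : (M.length * a i + a j) / M.length = a i := by
        rw [Nat.mul_add_div h0, Nat.div_eq_of_lt h2, Nat.add_zero]
      have h6 : (M.length * a i + a j) % M.length = a j := by
        rw [Nat.mul_add_mod, Nat.mod_eq_of_lt h2]
      rw [alw_two, cutAt_two, h4, h5, h6]
      simp only [h3, decide_true, Bool.true_and]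
      unfold rel
      by_cases hij : i = j
      · simp [hij]
      · have := hE i hi j hj hij
        simp [hij, this]
  · intro h
    obtain ⟨H, hH, hF⟩ := of_unit (fun w hw => two_le_len hw) _ _ h
    obtain ⟨X, h1, h2, h3, h4⟩ := solution_of_cut H hH hF
    have hd : ∀ i < k, X 0 i i % M.length = 0 ∧ X 0 i i / M.length < M.length := by
      intro i hi
      have := (h1 0 (by omega) i hi i hi).2
      simpa [alw] using this
    have h1' : ∀ i < k, ∀ j < k, X 1 i j < M.length := by
      intro i hi j hj
      have := (h1 1 (by omega) i hi j hj).2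
      simpa [alw] using this
    have h2' : ∀ i < k, ∀ j < k, rel M i j (X 0 i i / M.length) (X 1 i j) = true := by
      intro i hi j hj
      have e1 := (h1 2 (by omega) i hi j hj).2
      have e2 := h4 i hi j hj
      have e3 := (hd i hi).1
      have e4 := h2 i hi j hj i hi
      have e5 := h1' i hi j hj
      have h0 : 0 < M.length := by omega
      have e6 : M.length * M.length - X 2 i j = M.length * (X 0 i i / M.length) + X 1 i j := by
        have e7 : M.length * (X 0 i i / M.length) = X 0 i i := by
          have := Nat.div_add_mod (X 0 i i) M.length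
          omega
        rw [e7]
        omega
      have e8 : (M.length * (X 0 i i / M.length) + X 1 i j) / M.length = X 0 i i / M.length := by
        rw [Nat.mul_add_div h0, Nat.div_eq_of_lt e5, Nat.add_zero]
      have e9 : (M.length * (X 0 i i / M.length) + X 1 i j) % M.length = X 1 i j := by
        rw [Nat.mul_add_mod, Nat.mod_eq_of_lt e5]
      simp only [alw] at e1
      norm_num at e1
      rw [e6, e8, e9] at e1
      exact e1.2
    have h5 : ∀ i < k, X 0 i i / M.length = X 1 i i := by
      intro i hi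
      have := h2' i hi i hi
      simpa [rel] using this
    refine ⟨fun i => X 0 i i / M.length, fun i hi => (hd i hi).2, ?_⟩
    intro i hi j hj hij
    have e1 := h2' i hi j hj
    have e2 := h3 i hi j hj j hj
    show edg M (X 0 i i / M.length) (X 0 j j / M.length) = true
    rw [h5 j hj, ← e2]
    simpa [rel, hij] using e1

theorem red_correct (x : List (List Bool) × ℕ) : HasClique x ↔ UnitMVE (red x) := by
  obtain ⟨M, k⟩ := x
  unfold red
  by_cases hk : k ≤ M.length
  · simp only [hk, decide_true, cond_true, min_eq_left hk]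
    exact grid_correct hk
  · simp only [hk, decide_false, cond_false]
    exact ⟨fun h => absurd (card_le_of_clique h) hk, fun h => absurd h not_unitMVE_nil⟩

/-! ### Polynomial time -/

section poly

variable {α : Type} [TEnc α]

/-- The list of edges, for given lists of indices. -/
def basic' (rk rT : List ℕ) (T : ℕ) (al : ℕ → ℕ → ℕ → ℕ → Bool) : List (Vx × Vx × ℕ × Bool) :=
  rk.flatMap fun i => rk.flatMap fun j =>
    ((List.range 3).flatMap fun r => rT.map fun x =>
      ((r + 1, i, j, x), (r + 1, i, j, x + 1), Mm T, al r i j x)) ++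
    (((List.range 3).map fun r => ((0, 0, 0, 0), (r + 1, i, j, 0), ent T r, false)) ++
    (((List.range 3).map fun r => ((r + 1, i, j, T + 1), (4, 0, 0, 0), ext T r, false)) ++
    ((rT.map fun x => ((1, i, j, x), (2, i, j, 0), Mm T * (T + 2 - x) + (T - x), false)) ++
    ((rT.map fun x => ((2, i, j, x), (3, i, j, 0), Mm T * (T + 2 - x) + (T - x), false)) ++
    ((rT.map fun x => ((3, i, j, x), (4, 0, 0, 0), Mm T * (T + 2 - x) + (T - x), false)) ++
    ((rT.map fun x => ((0, 0, 0, 0), (1, i, j, x + 1), Mm T * (x + 2) + (Bb T + x), false)) ++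
    ((rT.map fun x => ((1, i, j, T + 1), (2, i, j, x + 1), Mm T * (x + 2) + x, false)) ++
    ((rT.map fun x => ((2, i, j, T + 1), (3, i, j, x + 1), Mm T * (x + 2) + x, false)) ++
    ((rk.flatMap fun m => rT.map fun x => ((1, i, j, x), (1, i, m, x), T + 2, false)) ++
    (rk.flatMap fun m => rT.map fun x => ((2, i, j, x), (2, m, j, x), T + 2, false)))))))))))

theorem basic_poly {rk rT : α → List ℕ} {T : α → ℕ} {al : α → ℕ → ℕ → ℕ → ℕ → Bool}
    (hrk : Poly rk) (hrT : Poly rT) (hT : Poly T)
    (hal : Poly (fun p : α × ℕ × ℕ × ℕ × ℕ => al p.1 p.2.1 p.2.2.1 p.2.2.2.1 p.2.2.2.2)) :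
    Poly (fun a => basic' (rk a) (rT a) (T a) (al a)) := by
  unfold basic' Mm Bb
  refine Poly.flatMap (α := α) (F := fun a i => _) hrk ?_
  refine Poly.flatMap (α := α × ℕ) (F := fun a j => _) (by fun_prop) ?_
  refine Poly.append ?_ (Poly.append ?_ (Poly.append ?_ ?_))
  · refine Poly.flatMap (α := (α × ℕ) × ℕ) (F := fun a r => _) (NPC.Poly.const _) ?_
    refine NPC.Poly.map (α := ((α × ℕ) × ℕ) × ℕ) (F := fun a x => _) (by fun_prop) ?_
    have h1 : Poly (fun p : (((α × ℕ) × ℕ) × ℕ) × ℕ =>
        al p.1.1.1.1 p.1.2 p.1.1.1.2 p.1.1.2 p.2) :=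
      hal.comp (f := fun p : (((α × ℕ) × ℕ) × ℕ) × ℕ =>
        (p.1.1.1.1, p.1.2, p.1.1.1.2, p.1.1.2, p.2)) (by fun_prop)
    fun_prop
  · unfold ent Mm
    fun_prop
  · unfold ext Mm Bb
    fun_prop
  · fun_prop

theorem basic_eq (k T : ℕ) (al : ℕ → ℕ → ℕ → ℕ → Bool) :
    basic' (List.range k) (List.range (T + 1)) T al = basic k T al := rfl

/-- The list of labelled edges, for a given list of labels. -/
def edges' (rc : List ℕ) (B : List (Vx × Vx × ℕ × Bool)) : List We :=
  B.flatMap fun e => bif e.2.2.2 then [(e.1, e.2.1, e.2.2.1, 0)] else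
    rc.map fun c => (e.1, e.2.1, e.2.2.1, c)

theorem edges_poly {rc : α → List ℕ} {B : α → List (Vx × Vx × ℕ × Bool)} (hrc : Poly rc)
    (hB : Poly B) : Poly (fun a => edges' (rc a) (B a)) := by
  unfold edges'
  refine Poly.flatMap (α := α) (F := fun a e => _) hB ?_
  fun_prop

theorem pt_poly {w : α → We} {i : α → ℕ} (hw : Poly w) (hi : Poly i) :
    Poly (fun a => pt (w a) (i a)) := by
  unfold pt orig
  fun_prop

/-- The edges of the subdivided graph, with a bound for the lengths. -/
def unitEdges' (L : ℕ) (E : List We) : List (Ds × Ds) :=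
  E.flatMap fun w => (List.range (min w.2.2.1 L)).map fun i => (pt w i, pt w (i + 1))

theorem unitEdges'_eq {L : ℕ} {E : List We} (h : ∀ w ∈ E, w.2.2.1 ≤ L) :
    unitEdges' L E = unitEdges E := by
  unfold unitEdges' unitEdges
  refine List.flatMap_congr fun w hw => ?_
  rw [min_eq_left (h w hw)]

theorem unitEdges_poly {L : α → ℕ} {E : α → List We} (hL : UPoly L) (hE : Poly E) :
    Poly (fun a => unitEdges' (L a) (E a)) := by
  unfold unitEdges'
  refine Poly.flatMap (F := fun a w => (List.range (min w.2.2.1 (L a))).map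
    fun i => (pt w i, pt w (i + 1))) hE ?_
  have h1 : Poly (fun p : α × We => p.1) := Poly.fst Poly.id
  have h2 : UPoly (fun p : α × We => min p.2.2.2.1 (L p.1)) :=
    UPoly.of_le (Poly.min (by fun_prop) (hL.comp h1).toPoly) (hL.comp h1)
      (fun _ => min_le_right _ _)
  refine NPC.Poly.map (α := α × We) (F := fun p i => (pt p.2 i, pt p.2 (i + 1))) h2.range ?_
  exact Poly.pair (pt_poly (by fun_prop) (by fun_prop)) (pt_poly (by fun_prop) (by fun_prop))

theorem unitVerts_poly {UE : α → List (Ds × Ds)} (h : Poly UE) :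
    Poly (fun a => (((UE a).map Prod.fst) ++ ((UE a).map Prod.snd) ++
      [orig (0, 0, 0, 0), orig (4, 0, 0, 0)]).dedup) := by
  refine poly_dedup ?_
  refine Poly.append (Poly.append ?_ ?_) (NPC.Poly.const _)
  · exact NPC.Poly.map (F := fun _ p => p.1) h (by fun_prop)
  · exact NPC.Poly.map (F := fun _ p => p.2) h (by fun_prop)

theorem mat_poly {V : α → List Ds} {UE : α → List (Ds × Ds)} (hV : Poly V) (hU : Poly UE) :
    Poly (fun a => (V a).map fun x => (V a).map fun y => decide ((x, y) ∈ UE a)) := by
  refine NPC.Poly.map (F := fun a x => (V a).map fun y => decide ((x, y) ∈ UE a)) hV ?_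
  have h1 : Poly (fun p : α × Ds => p.1) := Poly.fst Poly.id
  refine NPC.Poly.map (α := α × Ds) (F := fun p y => decide ((p.2, y) ∈ UE p.1))
    (hV.comp h1) ?_
  have h2 : Poly (fun q : (α × Ds) × Ds => UE q.1.1) :=
    hU.comp (Poly.fst (Poly.fst Poly.id))
  have h3 : Poly (fun q : (α × Ds) × Ds => (q.1.2, q.2)) :=
    Poly.pair (Poly.snd (Poly.fst Poly.id)) (Poly.snd Poly.id)
  exact (Poly.decide_mem h3 h2).congr fun q => by congr

theorem idxOf_poly {β : Type} [TEnc β] [BEq β] [LawfulBEq β] {l : α → List β} {b : α → β}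
    (hl : Poly l) (hb : Poly b) : Poly (fun a => (l a).idxOf (b a)) := by
  classical
  refine (poly_idxOf hl hb).congr fun a => ?_
  congr 1
  exact lawful_beq_subsingleton _ _

theorem unitVerts_eq (E : List We) : unitVerts E =
    (((unitEdges E).map Prod.fst) ++ ((unitEdges E).map Prod.snd) ++
      [orig (0, 0, 0, 0), orig (4, 0, 0, 0)]).dedup := rfl

theorem unitMat_eq (E : List We) : unitMat E =
    (unitVerts E).map fun a => (unitVerts E).map fun b => decide ((a, b) ∈ unitEdges E) := rfl

theorem gE_eq (M : List (List Bool)) (k : ℕ) : gE M k =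
    edges' (List.range (3 * (k * k) + 1)) (basic' (List.range k)
      (List.range (M.length * M.length + 1)) (M.length * M.length) (alw M)) := rfl

theorem len_le_goal {k T : ℕ} {al : ℕ → ℕ → ℕ → ℕ → Bool} {w : We} (hw : w ∈ edges k T al) :
    w.2.2.1 ≤ goal T := by
  obtain ⟨b, hb, -⟩ := mem_edges.1 hw
  obtain ⟨i, _, j, _, h⟩ := mem_basic.1 hb
  have hB : Mm T = 4 * Bb T := Mm_eq
  have h16 : 16 * T + 16 ≤ Mm T := by unfold Mm; omega
  have hM : ∀ a b, a ≤ b → Mm T * a ≤ Mm T * b := fun a b h => Nat.mul_le_mul_left _ h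
  have h0 := Nat.zero_le (Mm T * T)
  rcases h with ⟨r, _, x, _, h⟩ | ⟨r, hr, h⟩ | ⟨r, hr, h⟩ | ⟨x, hx, h⟩ | ⟨x, hx, h⟩ | ⟨x, hx, h⟩ |
    ⟨x, hx, h⟩ | ⟨x, hx, h⟩ | ⟨x, hx, h⟩ | ⟨m, _, x, _, h⟩ | ⟨m, _, x, _, h⟩
  all_goals
    simp only [Prod.mk.injEq] at h
    obtain ⟨-, -, h, -⟩ := h
    rw [← h]
    unfold goal
  · have := hM 1 (1 + 3 * (T + 2)) (by omega)
    omega
  · have := hM (1 + r * (T + 2)) (1 + 3 * (T + 2)) (by nlinarith)
    unfold ent
    cases decide (r = 0) <;> simp only [cond_true, cond_false] <;> omega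
  · have := hM (1 + (2 - r) * (T + 2)) (1 + 3 * (T + 2)) (by
      have : 2 - r ≤ 3 := by omega
      have := Nat.mul_le_mul_right (T + 2) this
      omega)
    unfold ext
    cases decide (r = 2) <;> simp only [cond_true, cond_false] <;> omega
  · have := hM (T + 2 - x) (1 + 3 * (T + 2)) (by omega)
    omega
  · have := hM (T + 2 - x) (1 + 3 * (T + 2)) (by omega)
    omega
  · have := hM (T + 2 - x) (1 + 3 * (T + 2)) (by omega)
    omega
  · have := hM (x + 3) (1 + 3 * (T + 2)) (by omega)
    rw [Nat.mul_add] at this ⊢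
    omega
  · have := hM (x + 2) (1 + 3 * (T + 2)) (by omega)
    omega
  · have := hM (x + 2) (1 + 3 * (T + 2)) (by omega)
    omega
  · have := hM 1 (1 + 3 * (T + 2)) (by omega)
    omega
  · have := hM 1 (1 + 3 * (T + 2)) (by omega)
    omega

theorem alw_poly : Poly (fun p : (List (List Bool) × ℕ) × ℕ × ℕ × ℕ × ℕ =>
    alw p.1.1 p.2.1 p.2.2.1 p.2.2.2.1 p.2.2.2.2) := by
  have hM : Poly (fun p : (List (List Bool) × ℕ) × ℕ × ℕ × ℕ × ℕ => p.1.1) := by fun_prop
  have hN : Poly (fun p : (List (List Bool) × ℕ) × ℕ × ℕ × ℕ × ℕ => p.1.1.length) :=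
    Poly.length hM
  have hNN := Poly.mul hN hN
  have hx : Poly (fun p : (List (List Bool) × ℕ) × ℕ × ℕ × ℕ × ℕ => p.2.2.2.2) := by fun_prop
  have hz := Poly.sub hNN hx
  have hd := Poly.div hz hN
  have hm := Poly.mod hz hN
  have hrel : Poly (fun p : (List (List Bool) × ℕ) × ℕ × ℕ × ℕ × ℕ =>
      rel p.1.1 p.2.2.1 p.2.2.2.1 ((p.1.1.length * p.1.1.length - p.2.2.2.2) / p.1.1.length)
        ((p.1.1.length * p.1.1.length - p.2.2.2.2) % p.1.1.length)) := by
    unfold rel
    exact Poly.cond (Poly.decide_eq (by fun_prop) (by fun_prop)) (Poly.decide_eq hd hm)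
      (H633.poly_edg hM hd hm)
  unfold alw
  refine Poly.cond (Poly.decide_eq (by fun_prop) (NPC.Poly.const _)) ?_
    (Poly.cond (Poly.decide_eq (by fun_prop) (NPC.Poly.const _)) ?_ ?_)
  · exact Poly.and (Poly.decide_eq (Poly.mod hx hN) (NPC.Poly.const _))
      (Poly.decide_lt (Poly.div hx hN) hN)
  · exact Poly.decide_lt hx hN
  · exact Poly.and (Poly.decide_lt hz hNN) hrel

set_option maxHeartbeats 400000 in
theorem red_poly : Poly red := by
  have hM : Poly (fun x : List (List Bool) × ℕ => x.1) := Poly.fst Poly.id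
  have hk : Poly (fun x : List (List Bool) × ℕ => x.2) := Poly.snd Poly.id
  have hN : UPoly (fun x : List (List Bool) × ℕ => x.1.length) := UPoly.length hM
  have hT : UPoly (fun x : List (List Bool) × ℕ => x.1.length * x.1.length) := UPoly.mul hN hN
  have hk' : UPoly (fun x : List (List Bool) × ℕ => min x.2 x.1.length) :=
    UPoly.of_le (Poly.min hk (Poly.length hM)) hN (fun _ => min_le_right _ _)
  have hc : UPoly (fun x : List (List Bool) × ℕ =>
      3 * (min x.2 x.1.length * min x.2 x.1.length)) :=
    UPoly.mul (UPoly.const 3) (UPoly.mul hk' hk')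
  have hg : UPoly (fun x : List (List Bool) × ℕ => goal (x.1.length * x.1.length)) := by
    unfold goal Mm
    exact UPoly.add (UPoly.mul (UPoly.add (UPoly.mul (UPoly.const 16) hT) (UPoly.const 16))
      (UPoly.add (UPoly.const 1) (UPoly.mul (UPoly.const 3) (UPoly.add hT (UPoly.const 2)))))
      (UPoly.mul (UPoly.const 2) hT)
  have hB := basic_poly (rk := fun x : List (List Bool) × ℕ => List.range (min x.2 x.1.length))
    (rT := fun x => List.range (x.1.length * x.1.length + 1))
    (T := fun x => x.1.length * x.1.length) (al := fun x => alw x.1)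
    hk'.range (UPoly.add hT (UPoly.const 1)).range hT.toPoly alw_poly
  have hE := edges_poly (rc := fun x : List (List Bool) × ℕ =>
    List.range (3 * (min x.2 x.1.length * min x.2 x.1.length) + 1))
    (UPoly.add hc (UPoly.const 1)).range hB
  have hE' : Poly (fun x : List (List Bool) × ℕ => gE x.1 (min x.2 x.1.length)) :=
    hE.congr fun x => (gE_eq _ _).symm
  have hU : Poly (fun x : List (List Bool) × ℕ => unitEdges (gE x.1 (min x.2 x.1.length))) :=
    (unitEdges_poly hg hE').congr fun x => unitEdges'_eq fun w hw => len_le_goal hw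
  have hV : Poly (fun x : List (List Bool) × ℕ => unitVerts (gE x.1 (min x.2 x.1.length))) :=
    (unitVerts_poly hU).congr fun x => (unitVerts_eq _).symm
  have hMat : Poly (fun x : List (List Bool) × ℕ => unitMat (gE x.1 (min x.2 x.1.length))) :=
    (mat_poly hV hU).congr fun x => (unitMat_eq _).symm
  unfold red
  refine Poly.cond (Poly.decide_le hk (Poly.length hM)) ?_ (NPC.Poly.const _)
  exact Poly.pair hMat (Poly.pair (idxOf_poly hV (NPC.Poly.const _))
    (Poly.pair (idxOf_poly hV (NPC.Poly.const _)) (Poly.pair hc.toPoly hg.toPoly)))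

end poly

end Pool.Agent.Y602.MVE
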