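import Pool.Agent.Y602.MVE.Defs

/-!
# Subdividing the edges of a graph with edge lengths
-/

namespace Pool.Agent.Y602.MVE

open Pool.Agent.H633R2

/-- Vertices of the graph with edge lengths. -/
abbrev Vx := ℕ × ℕ × ℕ × ℕ

/-- Edges: source, target, length, label. -/
abbrev We := Vx × Vx × ℕ × ℕ

/-- Vertices of the subdivided graph. -/
abbrev Ds := We × ℕ

instance : DecidableEq Ds := instDecidableEqProd

/-- The length of an edge. -/
def We.len (w : We) : ℕ := w.2.2.1

/-- A vertex of the graph with edge lengths as a vertex of the subdivided graph. -/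
def orig (v : Vx) : Ds := ((v, v, 0, 0), 0)

/-- The `i`-th vertex on the subdivided edge `w`. -/
def pt (w : We) (i : ℕ) : Ds :=
  bif decide (i = 0) then orig w.1 else bif decide (w.2.2.1 ≤ i) then orig w.2.1 else (w, i)

/-- The edges of the subdivided graph. -/
def unitEdges (E : List We) : List (Ds × Ds) :=
  E.flatMap fun w => (List.range w.2.2.1).map fun i => (pt w i, pt w (i + 1))

/-- The vertices of the subdivided graph. -/
def unitVerts (E : List We) : List Ds :=
  (((unitEdges E).map Prod.fst) ++ ((unitEdges E).map Prod.snd) ++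
    [orig (0, 0, 0, 0), orig (4, 0, 0, 0)]).dedup

/-- The adjacency matrix of the subdivided graph. -/
def unitMat (E : List We) : List (List Bool) :=
  (unitVerts E).map fun a => (unitVerts E).map fun b => decide ((a, b) ∈ unitEdges E)

variable {E : List We}

theorem pt_zero (w : We) : pt w 0 = orig w.1 := rfl

theorem pt_len {w : We} (h : 2 ≤ w.2.2.1) : pt w w.2.2.1 = orig w.2.1 := by
  unfold pt
  have h1 : decide (w.2.2.1 = 0) = false := by simp; omega
  have h2 : decide (w.2.2.1 ≤ w.2.2.1) = true := by simp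
  rw [h1, h2]; rfl

theorem pt_mid {w : We} {i : ℕ} (h0 : 0 < i) (h : i < w.2.2.1) : pt w i = (w, i) := by
  unfold pt
  have h1 : decide (i = 0) = false := by simp; omega
  have h2 : decide (w.2.2.1 ≤ i) = false := by simp; omega
  rw [h1, h2]; rfl

theorem mem_unitEdges {a b : Ds} :
    (a, b) ∈ unitEdges E ↔ ∃ w ∈ E, ∃ i < w.2.2.1, a = pt w i ∧ b = pt w (i + 1) := by
  unfold unitEdges
  simp only [List.mem_flatMap, List.mem_map, List.mem_range, Prod.mk.injEq]
  constructor
  · rintro ⟨w, hw, i, hi, h1, h2⟩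
    exact ⟨w, hw, i, hi, h1.symm, h2.symm⟩
  · rintro ⟨w, hw, i, hi, h1, h2⟩
    exact ⟨w, hw, i, hi, h1.symm, h2.symm⟩

theorem nodup_unitVerts : (unitVerts E).Nodup := List.nodup_dedup _

theorem mem_unitVerts {a : Ds} : a ∈ unitVerts E ↔ (∃ b, (a, b) ∈ unitEdges E) ∨
    (∃ b, (b, a) ∈ unitEdges E) ∨ a = orig (0, 0, 0, 0) ∨ a = orig (4, 0, 0, 0) := by
  unfold unitVerts
  rw [List.mem_dedup]
  simp only [List.mem_append, List.mem_map, Prod.exists, exists_and_right, exists_eq_right,
    List.mem_cons, List.not_mem_nil, or_false]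
  exact or_assoc

theorem pt_mem_left {w : We} (hw : w ∈ E) {i : ℕ} (hi : i < w.2.2.1) :
    pt w i ∈ unitVerts E :=
  mem_unitVerts.2 (Or.inl ⟨_, mem_unitEdges.2 ⟨w, hw, i, hi, rfl, rfl⟩⟩)

theorem pt_mem {w : We} (hw : w ∈ E) (h2 : 2 ≤ w.2.2.1) {i : ℕ} (hi : i ≤ w.2.2.1) :
    pt w i ∈ unitVerts E := by
  rcases Nat.lt_or_ge i w.2.2.1 with h | h
  · exact pt_mem_left hw h
  · have h3 : i = (w.2.2.1 - 1) + 1 := by omega
    rw [h3]
    exact mem_unitVerts.2 (Or.inr (Or.inl ⟨_, mem_unitEdges.2 ⟨w, hw, w.2.2.1 - 1, by omega,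
      rfl, rfl⟩⟩))

theorem unitMat_length : (unitMat E).length = (unitVerts E).length := by simp [unitMat]

theorem entry_unitMat {i j : ℕ} (hi : i < (unitVerts E).length) (hj : j < (unitVerts E).length) :
    entry (unitMat E) i j = decide (((unitVerts E)[i], (unitVerts E)[j]) ∈ unitEdges E) := by
  unfold entry unitMat
  have h1 : ((unitVerts E).map fun a => (unitVerts E).map fun b =>
      decide ((a, b) ∈ unitEdges E)).getD i [] =
        (unitVerts E).map fun b => decide (((unitVerts E)[i], b) ∈ unitEdges E) := by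
    rw [List.getD_eq_getElem _ _ (by simpa using hi), List.getElem_map]
  rw [h1, List.getD_eq_getElem _ _ (by simpa using hj), List.getElem_map]

/-- The vertex of the subdivided graph with a given index. -/
def vert (E : List We) (i : Fin (unitMat E).length) : Ds :=
  (unitVerts E)[(i : ℕ)]'(i.2.trans_eq unitMat_length)

theorem vert_inj {i j : Fin (unitMat E).length} (h : vert E i = vert E j) : i = j :=
  Fin.ext ((List.Nodup.getElem_inj_iff nodup_unitVerts).1 h)

theorem exists_vert {a : Ds} (h : a ∈ unitVerts E) : ∃ i, vert E i = a := by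
  obtain ⟨n, hn, rfl⟩ := List.getElem_of_mem h
  exact ⟨⟨n, by rw [unitMat_length]; exact hn⟩, rfl⟩

theorem vert_idxOf {a : Ds} (h : a ∈ unitVerts E) (h' : (unitVerts E).idxOf a <
    (unitMat E).length) : vert E ⟨(unitVerts E).idxOf a, h'⟩ = a := by
  unfold vert
  exact List.getElem_idxOf _

theorem idxOf_lt {a : Ds} (h : a ∈ unitVerts E) :
    (unitVerts E).idxOf a < (unitMat E).length := by
  rw [unitMat_length]
  exact List.idxOf_lt_length_of_mem h

theorem adj_iff {i j : Fin (unitMat E).length} : (graphOf (unitMat E)).Adj i j ↔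
    i ≠ j ∧ ((vert E i, vert E j) ∈ unitEdges E ∨ (vert E j, vert E i) ∈ unitEdges E) := by
  have hi := i.2.trans_eq unitMat_length
  have hj := j.2.trans_eq unitMat_length
  show i ≠ j ∧ (entry _ _ _ = true ∨ entry _ _ _ = true) ↔ _
  rw [entry_unitMat hi hj, entry_unitMat hj hi]
  simp only [decide_eq_true_eq, vert]

/-! ### From potentials to a solution -/

/-- The potential of the subdivided graph. -/
def liftPot (φ : Vx → ℤ) (H : Finset We) (a : Ds) : ℤ :=
  if a.2 = 0 then φ a.1.1 else if a.1 ∈ H then φ a.1.2.1 else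
    min (φ a.1.1 + a.2) (φ a.1.2.1 + (a.1.2.2.1 - a.2))

theorem liftPot_orig (φ : Vx → ℤ) (H : Finset We) (v : Vx) : liftPot φ H (orig v) = φ v := by
  simp [liftPot, orig]

theorem liftPot_pt_of_mem {φ : Vx → ℤ} {H : Finset We} {w : We} (hw : w ∈ H)
    (h2 : 2 ≤ w.2.2.1) {i : ℕ} (h0 : 0 < i) (hi : i ≤ w.2.2.1) :
    liftPot φ H (pt w i) = φ w.2.1 := by
  rcases Nat.lt_or_ge i w.2.2.1 with h | h
  · rw [pt_mid h0 h]
    unfold liftPot
    rw [if_neg (by simp; omega), if_pos hw]
  · have : i = w.2.2.1 := le_antisymm hi h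
    rw [this, pt_len h2, liftPot_orig]

theorem liftPot_pt_of_notMem {φ : Vx → ℤ} {H : Finset We} {w : We} (hw : w ∉ H)
    (h2 : 2 ≤ w.2.2.1) (hφ : |φ w.1 - φ w.2.1| ≤ w.2.2.1) {i : ℕ} (hi : i ≤ w.2.2.1) :
    liftPot φ H (pt w i) = min (φ w.1 + i) (φ w.2.1 + (w.2.2.1 - i)) := by
  rw [abs_le] at hφ
  rcases Nat.eq_zero_or_pos i with rfl | h0
  · rw [pt_zero, liftPot_orig]
    push_cast
    rw [min_eq_left (by omega)]
    ring
  · rcases Nat.lt_or_ge i w.2.2.1 with h | h
    · rw [pt_mid h0 h]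
      unfold liftPot
      rw [if_neg (by simp; omega), if_neg hw]
    · have : i = w.2.2.1 := le_antisymm hi h
      rw [this, pt_len h2, liftPot_orig, min_eq_right (by omega)]
      ring

theorem liftPot_step {φ : Vx → ℤ} {H : Finset We} {w : We}
    (h2 : 2 ≤ w.2.2.1) (hφ : w ∉ H → |φ w.1 - φ w.2.1| ≤ w.2.2.1) {i : ℕ} (hi : i < w.2.2.1)
    (h0 : w ∈ H → i ≠ 0) : |liftPot φ H (pt w (i + 1)) - liftPot φ H (pt w i)| ≤ 1 := by
  by_cases hw : w ∈ H
  · have := h0 hw
    rw [liftPot_pt_of_mem hw h2 (by omega) (by omega), liftPot_pt_of_mem hw h2 (by omega)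
      (by omega)]
    simp
  · rw [liftPot_pt_of_notMem hw h2 (hφ hw) (by omega), liftPot_pt_of_notMem hw h2 (hφ hw)
      (by omega)]
    push_cast
    rw [abs_le]
    constructor <;> omega

theorem pt_ne {w : We} (h2 : 2 ≤ w.2.2.1) {i : ℕ} (hi : i < w.2.2.1) : pt w i ≠ pt w (i + 1) := by
  intro h
  rcases Nat.eq_zero_or_pos i with rfl | h0
  · rw [pt_zero, pt_mid (by omega) (by omega)] at h
    have := congrArg Prod.snd h
    simp [orig] at this
  · rw [pt_mid h0 hi] at h
    rcases Nat.lt_or_ge (i + 1) w.2.2.1 with h3 | h3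
    · rw [pt_mid (by omega) h3] at h
      have := congrArg Prod.snd h
      simp at this
    · have h4 : i + 1 = w.2.2.1 := by omega
      rw [h4, pt_len h2] at h
      have := congrArg Prod.snd h
      simp [orig] at this
      omega

theorem walk_bound {n : ℕ} {G : SimpleGraph (Fin n)} (Φ : Fin n → ℤ)
    (h : ∀ i j, G.Adj i j → Φ j - Φ i ≤ 1) {i j : Fin n} (p : G.Walk i j) :
    Φ j - Φ i ≤ p.length := by
  induction p with
  | nil => simp
  | cons hadj p ih =>
    have := h _ _ hadj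
    rw [SimpleGraph.Walk.length_cons]
    push_cast
    omega

/-- A set of edges together with a potential gives a solution for the subdivided graph. -/
theorem unit_of_pot (hE : ∀ w ∈ E, 2 ≤ w.2.2.1) (H : Finset We) (φ : Vx → ℤ) (k l : ℕ)
    (hHE : ∀ w ∈ H, w ∈ E) (hHk : H.card ≤ k)
    (hφ : ∀ w ∈ E, w ∉ H → |φ w.1 - φ w.2.1| ≤ w.2.2.1)
    (hl : (l : ℤ) ≤ φ (4, 0, 0, 0) - φ (0, 0, 0, 0)) :
    UnitMVE (unitMat E, (unitVerts E).idxOf (orig (0, 0, 0, 0)),
      (unitVerts E).idxOf (orig (4, 0, 0, 0)), k, l) := by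
  have hs : orig (0, 0, 0, 0) ∈ unitVerts E := mem_unitVerts.2 (by tauto)
  have ht : orig (4, 0, 0, 0) ∈ unitVerts E := mem_unitVerts.2 (by tauto)
  classical
  let f : We → Sym2 (Fin (unitMat E).length) := fun w =>
    if h : pt w 0 ∈ unitVerts E ∧ pt w 1 ∈ unitVerts E then
      s(⟨(unitVerts E).idxOf (pt w 0), idxOf_lt h.1⟩, ⟨(unitVerts E).idxOf (pt w 1), idxOf_lt h.2⟩)
    else s(⟨_, idxOf_lt hs⟩, ⟨_, idxOf_lt hs⟩)
  have hf : ∀ w ∈ H, ∀ i j, vert E i = pt w 0 → vert E j = pt w 1 → f w = s(i, j) := by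
    intro w hw i j hi hj
    have hwE := hHE w hw
    have h2 := hE w hwE
    have h3 : pt w 0 ∈ unitVerts E ∧ pt w 1 ∈ unitVerts E :=
      ⟨pt_mem hwE h2 (by omega), pt_mem hwE h2 (by omega)⟩
    have h4 : f w = s(⟨(unitVerts E).idxOf (pt w 0), idxOf_lt h3.1⟩,
        ⟨(unitVerts E).idxOf (pt w 1), idxOf_lt h3.2⟩) := dif_pos h3
    rw [h4]
    have h5 : (⟨(unitVerts E).idxOf (pt w 0), idxOf_lt h3.1⟩ : Fin (unitMat E).length) = i :=
      vert_inj (by rw [vert_idxOf h3.1, hi])
    have h6 : (⟨(unitVerts E).idxOf (pt w 1), idxOf_lt h3.2⟩ : Fin (unitMat E).length) = j :=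
      vert_inj (by rw [vert_idxOf h3.2, hj])
    rw [h5, h6]
  refine ⟨idxOf_lt hs, idxOf_lt ht, H.image f, ?_, Finset.card_image_le.trans hHk, ?_⟩
  · intro e he
    rw [Finset.mem_coe, Finset.mem_image] at he
    obtain ⟨w, hw, rfl⟩ := he
    have hwE := hHE w hw
    have h2 := hE w hwE
    obtain ⟨i, hi⟩ := exists_vert (pt_mem (i := 0) hwE h2 (by omega))
    obtain ⟨j, hj⟩ := exists_vert (pt_mem (i := 1) hwE h2 (by omega))
    rw [hf w hw i j hi hj, SimpleGraph.mem_edgeSet, adj_iff]
    refine ⟨?_, Or.inl ?_⟩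
    · rintro rfl
      exact pt_ne h2 (i := 0) (by omega) (hi.symm.trans hj)
    · rw [hi, hj]
      exact mem_unitEdges.2 ⟨w, hwE, 0, by omega, rfl, rfl⟩
  · intro p _
    have key := walk_bound (fun i => liftPot φ H (vert E i)) (G := (graphOf
      (unitMat E)).deleteEdges ↑(H.image f)) ?_ p
    · simp only [vert_idxOf hs, vert_idxOf ht, liftPot_orig] at key
      have h1 : (p.darts.map fun _ => 1).sum = p.length := by simp
      show l ≤ (p.darts.map fun _ => 1).sum
      rw [h1]
      omega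
    · intro i j hij
      rw [SimpleGraph.deleteEdges_adj, adj_iff] at hij
      obtain ⟨⟨_, h⟩, hn⟩ := hij
      rcases h with h | h
      · obtain ⟨w, hw, m, hm, h1, h2⟩ := mem_unitEdges.1 h
        have := liftPot_step (φ := φ) (H := H) (hE w hw) (hφ w hw) hm (by
          rintro hwH rfl
          apply hn
          rw [Finset.mem_coe, Finset.mem_image]
          exact ⟨w, hwH, hf w hwH i j h1 h2⟩)
        rw [← h1, ← h2, abs_le] at this
        exact this.2
      · obtain ⟨w, hw, m, hm, h1, h2⟩ := mem_unitEdges.1 h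
        have := liftPot_step (φ := φ) (H := H) (hE w hw) (hφ w hw) hm (by
          rintro hwH rfl
          apply hn
          rw [Finset.mem_coe, Finset.mem_image]
          exact ⟨w, hwH, (hf w hwH j i h1 h2).trans Sym2.eq_swap⟩)
        rw [← h1, ← h2, abs_le] at this
        show liftPot φ H (vert E j) - liftPot φ H (vert E i) ≤ 1
        omega

/-! ### From a solution to a set of edges that meets all short walks -/

/-- Walks along the edges (in their direction) with a given total length, avoiding `H`. -/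
inductive FW (E : List We) (H : Finset We) : Vx → Vx → ℕ → Prop
  | nil (v : Vx) : FW E H v v 0
  | cons {w : We} {c : Vx} {n : ℕ} (hw : w ∈ E) (hH : w ∉ H) (h : FW E H w.2.1 c n) :
      FW E H w.1 c (w.2.2.1 + n)

theorem FW.trans {H : Finset We} {a b c : Vx} {m n : ℕ} (h1 : FW E H a b m) (h2 : FW E H b c n) :
    FW E H a c (m + n) := by
  induction h1 with
  | nil => simpa using h2
  | cons hw hH _ ih =>
    rw [add_assoc]
    exact FW.cons hw hH (ih h2)

theorem tag_eq {w w' : We} {i i' : ℕ} (h2 : 2 ≤ w.2.2.1)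
    (hi : i < w.2.2.1) (h : s(pt w i, pt w (i + 1)) = s(pt w' i', pt w' (i' + 1))) : w = w' := by
  have h3 : ∃ m, 0 < m ∧ (w, m) ∈ s(pt w i, pt w (i + 1)) := by
    rcases Nat.eq_zero_or_pos i with rfl | h0
    · exact ⟨1, by omega, by rw [pt_mid (i := 0 + 1) (by omega) (by omega)]; simp⟩
    · exact ⟨i, h0, by rw [pt_mid h0 hi]; simp⟩
  obtain ⟨m, hm, h4⟩ := h3
  rw [h] at h4
  have h5 : ∀ j, (w, m) = pt w' j → w = w' := by
    intro j hj
    unfold pt at hj
    rcases Bool.eq_false_or_eq_true (decide (j = 0)) with h6 | h6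
    · rw [h6] at hj
      have := congrArg Prod.snd hj
      simp [orig] at this
      omega
    · rcases Bool.eq_false_or_eq_true (decide (w'.2.2.1 ≤ j)) with h7 | h7
      · rw [h6, h7] at hj
        have := congrArg Prod.snd hj
        simp [orig] at this
        omega
      · rw [h6, h7] at hj
        exact congrArg Prod.fst hj
  rw [Sym2.mem_iff] at h4
  rcases h4 with h4 | h4
  · exact h5 _ h4
  · exact h5 _ h4

/-- A solution for the subdivided graph gives a small set of edges that meets all short walks. -/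
theorem of_unit (hE : ∀ w ∈ E, 2 ≤ w.2.2.1) (k l : ℕ)
    (h : UnitMVE (unitMat E, (unitVerts E).idxOf (orig (0, 0, 0, 0)),
      (unitVerts E).idxOf (orig (4, 0, 0, 0)), k, l)) :
    ∃ H : Finset We, H.card ≤ k ∧ ∀ n, FW E H (0, 0, 0, 0) (4, 0, 0, 0) n → l ≤ n := by
  classical
  obtain ⟨hs', ht', S, _, hSk, hS⟩ := h
  simp only at hs' ht' S hSk hS
  have hs : orig (0, 0, 0, 0) ∈ unitVerts E := mem_unitVerts.2 (by tauto)
  have ht : orig (4, 0, 0, 0) ∈ unitVerts E := mem_unitVerts.2 (by tauto)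
  let S' : Finset (Sym2 Ds) := S.image (Sym2.map (vert E))
  let hit : We → Prop := fun w => ∃ i < w.2.2.1, s(pt w i, pt w (i + 1)) ∈ S'
  let H : Finset We := E.toFinset.filter hit
  refine ⟨H, ?_, ?_⟩
  · have h1 : ∀ w : We, ∃ e : Sym2 Ds, w ∈ H → e ∈ S' ∧ ∃ i < w.2.2.1,
        e = s(pt w i, pt w (i + 1)) := by
      intro w
      by_cases hw : w ∈ H
      · obtain ⟨i, hi, h3⟩ := (Finset.mem_filter.1 hw).2
        exact ⟨_, fun _ => ⟨h3, i, hi, rfl⟩⟩
      · exact ⟨s(orig (0, 0, 0, 0), orig (0, 0, 0, 0)), fun h => absurd h hw⟩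
    choose g hg using h1
    refine (Finset.card_le_card_of_injOn g (fun w hw => (hg w hw).1) ?_).trans
      (Finset.card_image_le.trans hSk)
    intro w hw w' hw' hww
    obtain ⟨i, hi, h3⟩ := (hg w hw).2
    obtain ⟨i', hi', h4⟩ := (hg w' hw').2
    refine tag_eq (hE w ?_) hi (h3.symm.trans (hww.trans h4))
    exact List.mem_toFinset.1 (Finset.mem_filter.1 hw).1
  · -- lifting walks
    let Wk : Ds → Ds → ℕ → Prop := fun a b n => ∀ i j, vert E i = a → vert E j = b →
      ∃ p : ((graphOf (unitMat E)).deleteEdges ↑S).Walk i j, p.length = n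
    have w0 : ∀ a, Wk a a 0 := by
      intro a i j hi hj
      obtain rfl := vert_inj (hi.trans hj.symm)
      exact ⟨SimpleGraph.Walk.nil, rfl⟩
    have wt : ∀ a b c m n, b ∈ unitVerts E → Wk a b m → Wk b c n → Wk a c (m + n) := by
      intro a b c m n hb h1 h2 i j hi hj
      obtain ⟨x, hx⟩ := exists_vert hb
      obtain ⟨p, hp⟩ := h1 i x hi hx
      obtain ⟨q, hq⟩ := h2 x j hx hj
      exact ⟨p.append q, by rw [SimpleGraph.Walk.length_append, hp, hq]⟩
    have w1 : ∀ w ∈ E, ∀ i < w.2.2.1, s(pt w i, pt w (i + 1)) ∉ S' →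
        Wk (pt w i) (pt w (i + 1)) 1 := by
      intro w hw m hm hn i j hi hj
      have hadj : ((graphOf (unitMat E)).deleteEdges ↑S).Adj i j := by
        rw [SimpleGraph.deleteEdges_adj, adj_iff]
        refine ⟨⟨?_, Or.inl (mem_unitEdges.2 ⟨w, hw, m, hm, hi, hj⟩)⟩, ?_⟩
        · rintro rfl
          exact pt_ne (hE w hw) hm (hi.symm.trans hj)
        · intro h3
          apply hn
          rw [Finset.mem_image]
          exact ⟨s(i, j), h3, by rw [Sym2.map_mk, hi, hj]⟩
      exact ⟨SimpleGraph.Walk.cons hadj SimpleGraph.Walk.nil, rfl⟩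
    have w2 : ∀ w ∈ E, w ∉ H → ∀ m ≤ w.2.2.1, Wk (pt w 0) (pt w m) m := by
      intro w hw hn m
      induction m with
      | zero => exact fun _ => w0 _
      | succ m ih =>
        intro hm
        refine wt _ (pt w m) _ _ _ (pt_mem hw (hE w hw) (by omega)) (ih (by omega))
          (w1 w hw m (by omega) fun h3 => hn ?_)
        exact Finset.mem_filter.2 ⟨List.mem_toFinset.2 hw, m, by omega, h3⟩
    have w3 : ∀ a b n, FW E H a b n → Wk (orig a) (orig b) n := by
      intro a b n h3
      induction h3 with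
      | nil v => exact w0 _
      | @cons w c n hw hH _ ih =>
        have h4 := w2 w hw hH w.2.2.1 le_rfl
        rw [pt_len (hE w hw), pt_zero] at h4
        refine wt _ _ _ _ _ ?_ h4 ih
        have := pt_mem hw (hE w hw) (le_refl w.2.2.1)
        rwa [pt_len (hE w hw)] at this
    intro n hn
    obtain ⟨p, hp⟩ := w3 _ _ _ hn ⟨_, hs'⟩ ⟨_, ht'⟩ (vert_idxOf hs _) (vert_idxOf ht _)
    have h5 := hS p.bypass p.bypass_isPath
    have h6 : (p.bypass.darts.map fun _ => 1).sum = p.bypass.length := by simp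
    have h7 : p.bypass.length ≤ p.length := p.length_bypass_le
    have h8 : l ≤ (p.bypass.darts.map fun _ => 1).sum := h5
    omega

end Pool.Agent.Y602.MVE
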